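import Mathlib
import Pool.Agent.X122.HausKer
import Pool.Agent.X122.HausKernels
import Pool.Agent.X122.HausKernelV

/-!
# MP_7489b4_an: fast Hausdorff approximation forces continuity

If a bounded measurable function `f` satisfies one of the conditions (W), (P), (V), then `f` is
continuous; in particular it has no point of discontinuity of the second kind.
-/

namespace Pool.Agent.Results.MP_7489b4_an.FastImpliesCont

open MeasureTheory Filter Topology Set Pool.Agent.X122.HausKer
open scoped ENNReal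

/-- The lower function `min (f x) (liminf_{t → x} f t)`. -/
noncomputable def lowerEnv (f : ℝ → ℝ) (x : ℝ) : ℝ := min (f x) (liminf f (𝓝[≠] x))

/-- The upper function `max (f x) (limsup_{t → x} f t)`. -/
noncomputable def upperEnv (f : ℝ → ℝ) (x : ℝ) : ℝ := max (f x) (limsup f (𝓝[≠] x))

/-- The completed graph. -/
def complGraph (f : ℝ → ℝ) : Set (ℝ × ℝ) := {p | lowerEnv f p.1 ≤ p.2 ∧ p.2 ≤ upperEnv f p.1}

/-- The map `(x, y) ↦ (x / α, y)`; it carries the metric `ρ_α` to the maximum metric of `ℝ × ℝ`. -/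
noncomputable def scale (α : ℝ) (p : ℝ × ℝ) : ℝ × ℝ := (p.1 / α, p.2)

/-- The Hausdorff distance `r(α; f, g)` of the completed graphs with respect to `ρ_α`. -/
noncomputable def hdist (α : ℝ) (f g : ℝ → ℝ) : ℝ≥0∞ :=
  Metric.hausdorffEDist (scale α '' complGraph f) (scale α '' complGraph g)

/-- The Weierstrass operator `W_n`. -/
noncomputable def W (n : ℕ) (f : ℝ → ℝ) (x : ℝ) : ℝ :=
  √(n / Real.pi) * ∫ s : ℝ, f (x + s) * Real.exp (-(n : ℝ) * s ^ 2)

/-- The Poisson operator `P_ρ`. -/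
noncomputable def P (ρ : ℝ) (f : ℝ → ℝ) (x : ℝ) : ℝ :=
  1 / (2 * Real.pi) * ∫ s in (-Real.pi)..Real.pi,
    f (x + s) * ((1 - ρ ^ 2) / (1 + ρ ^ 2 - 2 * ρ * Real.cos s))

/-- The de la Vallée Poussin operator `V_n`. -/
noncomputable def V (n : ℕ) (f : ℝ → ℝ) (x : ℝ) : ℝ :=
  ((n.factorial : ℝ) ^ 2 / ((2 * n).factorial : ℝ)) * (1 / (2 * Real.pi)) *
    ∫ s in (-Real.pi)..Real.pi, f (x + s) * (2 * Real.cos (s / 2)) ^ (2 * n)

/-- Condition (W). -/
def CondW (α : ℝ) (f : ℝ → ℝ) : Prop :=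
  limsup (fun n : ℕ => ENNReal.ofReal √(n : ℝ) * hdist α f (W n f)) atTop < ⊤

/-- Condition (P). -/
def CondP (α : ℝ) (f : ℝ → ℝ) : Prop :=
  limsup (fun ρ : ℝ => hdist α f (P ρ f) / ENNReal.ofReal (1 - ρ)) (𝓝[<] 1) < ⊤

/-- Condition (V). -/
def CondV (α : ℝ) (f : ℝ → ℝ) : Prop :=
  limsup (fun n : ℕ => ENNReal.ofReal √(n : ℝ) * hdist α f (V n f)) atTop < ⊤

/-! ### The Hausdorff step -/

section Step

variable {f : ℝ → ℝ} {F : ℝ}

lemma bddA (hF : ∀ x, |f x| ≤ F) (l : Filter ℝ) : l.IsBoundedUnder (· ≤ ·) f :=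
  ⟨F, by simp only [eventually_map]; exact Eventually.of_forall fun x => (abs_le.mp (hF x)).2⟩

lemma bddB (hF : ∀ x, |f x| ≤ F) (l : Filter ℝ) : l.IsBoundedUnder (· ≥ ·) f :=
  ⟨-F, by simp only [eventually_map]; exact Eventually.of_forall fun x => (abs_le.mp (hF x)).1⟩

lemma lower_le_upper (f : ℝ → ℝ) (x : ℝ) : lowerEnv f x ≤ upperEnv f x :=
  le_trans (min_le_left _ _) (le_max_left _ _)

lemma near_upper (hF : ∀ x, |f x| ≤ F) (x : ℝ) (ε : ℝ) (hε : 0 < ε) :
    ∀ᶠ t in 𝓝 x, f t ≤ upperEnv f x + ε := by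
  rw [← pure_sup_nhdsNE, eventually_sup]
  constructor
  · rw [eventually_pure]
    have : f x ≤ upperEnv f x := le_max_left _ _
    linarith
  · have h : limsup f (𝓝[≠] x) < upperEnv f x + ε := by
      have : limsup f (𝓝[≠] x) ≤ upperEnv f x := le_max_right _ _
      linarith
    exact (eventually_lt_of_limsup_lt h (bddA hF _)).mono fun t ht => ht.le

lemma near_lower (hF : ∀ x, |f x| ≤ F) (x : ℝ) (ε : ℝ) (hε : 0 < ε) :
    ∀ᶠ t in 𝓝 x, lowerEnv f x - ε ≤ f t := by
  rw [← pure_sup_nhdsNE, eventually_sup]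
  constructor
  · rw [eventually_pure]
    have : lowerEnv f x ≤ f x := min_le_left _ _
    linarith
  · have h : lowerEnv f x - ε < liminf f (𝓝[≠] x) := by
      have : lowerEnv f x ≤ liminf f (𝓝[≠] x) := min_le_right _ _
      linarith
    exact (eventually_lt_of_lt_liminf h (bddB hF _)).mono fun t ht => ht.le

/-- Points near which `g` is large. -/
lemma exists_near_upper {g : ℝ → ℝ} {G : ℝ} (hG : ∀ x, |g x| ≤ G) (x y : ℝ)
    (hy : y ≤ upperEnv g x) {h ε : ℝ} (hh : 0 < h) (hε : 0 < ε) :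
    ∃ t, |t - x| ≤ h ∧ y - ε ≤ g t := by
  rcases le_max_iff.mp hy with h1 | h1
  · exact ⟨x, by simpa using hh.le, by linarith⟩
  · have h2 : y - ε < limsup g (𝓝[≠] x) := by linarith
    have h3 := frequently_lt_of_lt_limsup (IsBoundedUnder.isCoboundedUnder_le (bddB hG _)) h2
    have h4 : ∀ᶠ t in 𝓝[≠] x, |t - x| ≤ h := by
      apply eventually_nhdsWithin_of_eventually_nhds
      have := Metric.closedBall_mem_nhds x hh
      filter_upwards [this] with t ht
      simpa [Real.dist_eq] using ht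
    obtain ⟨t, ht1, ht2⟩ := (h3.and_eventually h4).exists
    exact ⟨t, ht2, ht1.le⟩

lemma exists_near_lower {g : ℝ → ℝ} {G : ℝ} (hG : ∀ x, |g x| ≤ G) (x y : ℝ)
    (hy : lowerEnv g x ≤ y) {h ε : ℝ} (hh : 0 < h) (hε : 0 < ε) :
    ∃ t, |t - x| ≤ h ∧ g t ≤ y + ε := by
  rcases min_le_iff.mp hy with h1 | h1
  · exact ⟨x, by simpa using hh.le, by linarith⟩
  · have h2 : liminf g (𝓝[≠] x) < y + ε := by linarith
    have h3 := frequently_lt_of_liminf_lt (IsBoundedUnder.isCoboundedUnder_ge (bddA hG _)) h2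
    have h4 : ∀ᶠ t in 𝓝[≠] x, |t - x| ≤ h := by
      apply eventually_nhdsWithin_of_eventually_nhds
      have := Metric.closedBall_mem_nhds x hh
      filter_upwards [this] with t ht
      simpa [Real.dist_eq] using ht
    obtain ⟨t, ht1, ht2⟩ := (h3.and_eventually h4).exists
    exact ⟨t, ht2, ht1.le⟩

lemma conv_bdd {K : ℝ → ℝ} (hK : ∀ s, 0 ≤ K s) (hKi : Integrable K) (hK1 : ∫ s, K s = 1)
    (hF : ∀ x, |f x| ≤ F) (x : ℝ) : |conv K f x| ≤ F := by
  unfold conv
  rw [← Real.norm_eq_abs]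
  have : ∫ s, F * K s = F := by rw [integral_const_mul, hK1, mul_one]
  rw [← this]
  apply norm_integral_le_of_norm_le (hKi.const_mul F)
  refine ae_of_all _ fun s => ?_
  rw [Real.norm_eq_abs, abs_mul, abs_of_nonneg (hK s)]
  exact mul_le_mul_of_nonneg_right (hF _) (hK s)

/-- From a point of the completed graph of `f` to a near point of the completed graph of `g`. -/
lemma exists_close {α : ℝ} (hα : 0 < α) {f g : ℝ → ℝ} {δ : ℝ}
    (h : hdist α f g < ENNReal.ofReal δ) (p : ℝ × ℝ) (hp : p ∈ complGraph f) :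
    ∃ q ∈ complGraph g, |q.1 - p.1| ≤ α * δ ∧ |q.2 - p.2| ≤ δ := by
  obtain ⟨q', hq', hlt⟩ := Metric.exists_edist_lt_of_hausdorffEDist_lt
    (Set.mem_image_of_mem (scale α) hp) h
  obtain ⟨q, hq, rfl⟩ := hq'
  refine ⟨q, hq, ?_⟩
  rw [edist_lt_ofReal, Prod.dist_eq, max_lt_iff] at hlt
  obtain ⟨h1, h2⟩ := hlt
  simp only [scale, Real.dist_eq] at h1 h2
  constructor
  · have : p.1 / α - q.1 / α = (p.1 - q.1) / α := by ring
    rw [this, abs_div, abs_of_pos hα, div_lt_iff₀ hα, abs_sub_comm] at h1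
    linarith
  · rw [abs_sub_comm]
    exact h2.le

/-- The general theorem for good kernels. -/
theorem continuous_of_goodKernel {ι : Type*} {l : Filter ι} [l.NeBot] {K : ι → ℝ → ℝ} {h : ι → ℝ}
    (gk : GoodKernel l K h) {α : ℝ} (hα : 0 < α) (hf : AEStronglyMeasurable f)
    (hF : ∀ x, |f x| ≤ F) {C : ℝ} (hC : 0 < C)
    (H : ∀ᶠ i in l, hdist α f (conv (K i) f) < ENNReal.ofReal (C * h i)) : Continuous f := by
  rw [continuous_iff_continuousAt]
  intro x0
  have hB : 0 < α * C + 1 := by positivity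
  have hCh : Tendsto (fun i => C * h i) l (𝓝 0) := by
    have := gk.hlim.const_mul C
    rwa [mul_zero] at this
  have key : upperEnv f x0 ≤ lowerEnv f x0 := by
    refine core gk hf hF (near_upper hF x0) (near_lower hF x0) hB ?_ ?_
    · intro ε hε
      filter_upwards [gk.nonneg, gk.integrable, gk.mass, gk.hpos, H,
        hCh.eventually (gt_mem_nhds (half_pos hε))] with i h1 h2 h3 h4 h5 h6
      obtain ⟨q, hq, hq1, hq2⟩ := exists_close hα h5 (x0, upperEnv f x0)
        ⟨lower_le_upper f x0, le_rfl⟩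
      obtain ⟨t, ht1, ht2⟩ := exists_near_upper (conv_bdd h1 h2 h3 hF) q.1 q.2 hq.2 h4
        (half_pos hε)
      refine ⟨t, ?_, ?_⟩
      · have : t - x0 = (t - q.1) + (q.1 - x0) := by ring
        rw [this]
        refine le_trans (abs_add_le _ _) ?_
        simp only at hq1
        nlinarith
      · have := (abs_le.mp hq2).1
        simp only at this
        linarith
    · intro ε hε
      filter_upwards [gk.nonneg, gk.integrable, gk.mass, gk.hpos, H,
        hCh.eventually (gt_mem_nhds (half_pos hε))] with i h1 h2 h3 h4 h5 h6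
      obtain ⟨q, hq, hq1, hq2⟩ := exists_close hα h5 (x0, lowerEnv f x0)
        ⟨le_rfl, lower_le_upper f x0⟩
      obtain ⟨t, ht1, ht2⟩ := exists_near_lower (conv_bdd h1 h2 h3 hF) q.1 q.2 hq.1 h4
        (half_pos hε)
      refine ⟨t, ?_, ?_⟩
      · have : t - x0 = (t - q.1) + (q.1 - x0) := by ring
        rw [this]
        refine le_trans (abs_add_le _ _) ?_
        simp only at hq1
        nlinarith
      · have := (abs_le.mp hq2).2
        simp only at this
        linarith
  rw [continuousAt_iff_punctured_nhds]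
  have e1 : f x0 ≤ liminf f (𝓝[≠] x0) :=
    le_trans (le_max_left _ _) (le_trans key (min_le_right _ _))
  have e2 : limsup f (𝓝[≠] x0) ≤ f x0 :=
    le_trans (le_max_right _ _) (le_trans key (min_le_left _ _))
  exact tendsto_of_le_liminf_of_limsup_le e1 e2 (bddA hF _) (bddB hF _)

end Step

lemma W_eq (n : ℕ) (f : ℝ → ℝ) : W n f = conv (KW n) f := by
  funext x
  unfold W conv KW
  rw [← integral_const_mul]
  congr 1
  funext s
  ring

lemma P_eq (ρ : ℝ) (f : ℝ → ℝ) : P ρ f = conv (KP ρ) f := by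
  funext x
  unfold P conv KP
  have hpi := Real.pi_pos
  have e : (fun s => f (x + s) * indicator (Ioc (-Real.pi) Real.pi) (kP ρ) s) =
      indicator (Ioc (-Real.pi) Real.pi) (fun s => f (x + s) * kP ρ s) := by
    funext s
    by_cases h : s ∈ Ioc (-Real.pi) Real.pi
    · rw [indicator_of_mem h, indicator_of_mem h]
    · rw [indicator_of_notMem h, indicator_of_notMem h, mul_zero]
  rw [e, integral_indicator measurableSet_Ioc, ← intervalIntegral.integral_of_le (by linarith),
    ← intervalIntegral.integral_const_mul]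
  congr 1
  funext s
  unfold kP
  ring

lemma V_eq (n : ℕ) (f : ℝ → ℝ) : V n f = conv (KV n) f := by
  funext x
  unfold V conv KV
  have hpi := Real.pi_pos
  have e : (fun s => f (x + s) * indicator (Ioc (-Real.pi) Real.pi) (kV n) s) =
      indicator (Ioc (-Real.pi) Real.pi) (fun s => f (x + s) * kV n s) := by
    funext s
    by_cases h : s ∈ Ioc (-Real.pi) Real.pi
    · rw [indicator_of_mem h, indicator_of_mem h]
    · rw [indicator_of_notMem h, indicator_of_notMem h, mul_zero]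
  rw [e, integral_indicator measurableSet_Ioc, ← intervalIntegral.integral_of_le (by linarith),
    ← intervalIntegral.integral_const_mul]
  congr 1
  funext s
  unfold kV
  ring

lemma bound_of_limsup {α : ℝ} {f : ℝ → ℝ} {g : ℕ → ℝ → ℝ}
    (h : limsup (fun n : ℕ => ENNReal.ofReal √(n : ℝ) * hdist α f (g n)) atTop < ⊤) :
    ∃ C > 0, ∀ᶠ n : ℕ in atTop, hdist α f (g n) < ENNReal.ofReal (C * (1 / √(n : ℝ))) := by
  obtain ⟨C, hC1, _⟩ := ENNReal.lt_iff_exists_nnreal_btwn.mp h
  refine ⟨(C : ℝ) + 1, by positivity, ?_⟩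
  filter_upwards [eventually_lt_of_limsup_lt hC1, eventually_gt_atTop 0] with n hn hn0
  have hn' : (0 : ℝ) < n := by exact_mod_cast hn0
  have hsn : 0 < √(n : ℝ) := by positivity
  by_contra hcon
  push Not at hcon
  have h1 : ENNReal.ofReal √(n : ℝ) * ENNReal.ofReal (((C : ℝ) + 1) * (1 / √(n : ℝ))) < C :=
    lt_of_le_of_lt (mul_le_mul_right hcon _) hn
  rw [← ENNReal.ofReal_mul hsn.le] at h1
  have e : √(n : ℝ) * (((C : ℝ) + 1) * (1 / √(n : ℝ))) = (C : ℝ) + 1 := by field_simp
  rw [e, ← ENNReal.ofReal_coe_nnreal, ENNReal.ofReal_lt_ofReal_iff_of_nonneg (by positivity)] at h1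
  linarith

/-- If a bounded (Lebesgue) measurable function satisfies (W), (P) or (V), then it is continuous
at every point; in particular it has no point of discontinuity of the second kind. -/
theorem result : ∀ α : ℝ, 0 < α → ∀ f : ℝ → ℝ, AEMeasurable f volume → (∃ F : ℝ, ∀ x, |f x| ≤ F) →
    (CondW α f ∨ CondP α f ∨ CondV α f) → Continuous f := by
  intro α hα f hfm ⟨F, hF⟩ hcond
  have hf : AEStronglyMeasurable f := hfm.aestronglyMeasurable
  rcases hcond with h | h | h
  · obtain ⟨C, hC, hev⟩ := bound_of_limsup h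
    refine continuous_of_goodKernel goodW hα hf hF hC ?_
    simpa only [W_eq] using hev
  · unfold CondP at h
    obtain ⟨C, hC1, _⟩ := ENNReal.lt_iff_exists_nnreal_btwn.mp h
    refine continuous_of_goodKernel (C := (C : ℝ) + 1) goodP hα hf hF (by positivity) ?_
    filter_upwards [eventually_lt_of_limsup_lt hC1, eventually_mem_P] with ρ hρ hρ2
    have h1ρ : 0 < 1 - ρ := by linarith [hρ2.2]
    rw [← P_eq]
    by_contra hcon
    push Not at hcon
    have h1 : ENNReal.ofReal (((C : ℝ) + 1) * (1 - ρ)) / ENNReal.ofReal (1 - ρ) < C :=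
      lt_of_le_of_lt (ENNReal.div_le_div_right hcon _) hρ
    rw [← ENNReal.ofReal_div_of_pos h1ρ] at h1
    have e : ((C : ℝ) + 1) * (1 - ρ) / (1 - ρ) = (C : ℝ) + 1 := by field_simp
    rw [e, ← ENNReal.ofReal_coe_nnreal, ENNReal.ofReal_lt_ofReal_iff_of_nonneg (by positivity)] at h1
    linarith
  · obtain ⟨C, hC, hev⟩ := bound_of_limsup h
    refine continuous_of_goodKernel goodV hα hf hF hC ?_
    simpa only [V_eq] using hev

end Pool.Agent.Results.MP_7489b4_an.FastImpliesCont
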